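import Pool.Agent.Helper95.KoszulComplex

set_option autoImplicit false

namespace Pool.Agent.Results.MP_ab447a_ag.NonvanishingRange

open Pool.Agent.Helper95.Koszul

universe u

/-- For every field `k`, all `q ≤ n`, `b ≥ 0` and `d ≥ b + q + 1`, the Koszul cohomology group
`K_{p,q}(P^n, b; d)` is nonzero for every `p` with `λ_q ≤ p ≤ μ_q`, where
`λ_q = C(d+q, q) - C(d-b-1, q) - q` and
`μ_q = C(d+n, n) - C(d+n-q, n-q) + C(n+b, n-q) - q - 1`. -/
theorem result (k : Type u) [Field k] (n b d q p : ℕ) (hqn : q ≤ n) (hd : b + q + 1 ≤ d)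
    (h₁ : ((d + q).choose q : ℤ) - ((d - b - 1).choose q : ℤ) - q ≤ p)
    (h₂ : (p : ℤ) ≤ ((d + n).choose n : ℤ) - ((d + n - q).choose (n - q) : ℤ) +
      ((n + b).choose (n - q) : ℤ) - q - 1) :
    Nontrivial (KoszulCohomology k n b d p q) :=
  nontrivial_main k hqn hd h₁ h₂

end Pool.Agent.Results.MP_ab447a_ag.NonvanishingRange
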